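import Pool.Agent.V11332.Cramer

/-!
# MP_c7609e: rigidity is not special to the exponential

We disprove Q1: for every `lam ∈ [0,1)` and `c > 0` the function `L(s) = lam + (1-lam) e^{-cs}`
lies in the class `𝓛` and has property (R); for `lam > 0` it is not of the form `e^{-cs}`.
-/

namespace Pool.Agent.Results.MP_c7609e_pr.AffineRigid

open MeasureTheory ProbabilityTheory Set Filter Topology
open scoped ENNReal NNReal
open Pool.Agent.V11332.Cramer

/-- The class `𝓛`: completely monotone `L : [0,∞) → (0,1]`, injective, with `L 0 = 1`. -/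
structure InL (L : ℝ → ℝ) : Prop where
  cont : ContinuousOn L (Ici 0)
  smooth : ∀ n : ℕ, ContDiffOn ℝ n L (Ioi 0)
  mono : ∀ n : ℕ, ∀ s : ℝ, 0 < s → 0 ≤ (-1) ^ n * iteratedDeriv n L s
  range : ∀ s : ℝ, 0 ≤ s → 0 < L s ∧ L s ≤ 1
  inj : InjOn L (Ici 0)
  zero : L 0 = 1

/-- `Φ_L(x,y) = L(L⁻¹(x) + L⁻¹(y))` for `x, y ∈ I_L = L([0,∞))`. -/
noncomputable def Phi (L : ℝ → ℝ) (x y : ℝ) : ℝ :=
  L (Function.invFunOn L (Ici 0) x + Function.invFunOn L (Ici 0) y)

/-- The set `𝒞` of functions `ψ(ξ) = σ²ξ²/2 + ∫_{(0,∞)} (1 - cos(tξ)) ν(dt)` with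
`∫ (1 ∧ t²) dν < ∞`. -/
def CC : Set (ℝ → ℝ) :=
  {ψ | ∃ (σ : ℝ) (ν : Measure ℝ), ν (Iic 0) = 0 ∧
    ∫⁻ t, ENNReal.ofReal (min 1 (t ^ 2)) ∂ν < ∞ ∧
    ∀ ξ, ψ ξ = 1 / 2 * σ ^ 2 * ξ ^ 2 + ∫ t, (1 - Real.cos (t * ξ)) ∂ν}

/-- `f` is the characteristic function of a probability measure on `ℝ`. -/
def IsCF (f : ℝ → ℝ) : Prop :=
  ∃ μ : Measure ℝ, IsProbabilityMeasure μ ∧ ∀ ξ : ℝ, charFun μ ξ = (f ξ : ℂ)

/-- Property (R). -/
def PropR (L : ℝ → ℝ) : Prop :=
  ∀ a : ℝ, 0 < a → ∀ f₁ f₂ : ℝ → ℝ, IsCF f₁ → IsCF f₂ →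
    (∀ ξ, f₁ ξ ∈ L '' Ici 0) → (∀ ξ, f₂ ξ ∈ L '' Ici 0) →
    (∀ ξ, Phi L (f₁ ξ) (f₂ ξ) = L (a * ξ ^ 2)) →
    ∃ η₁ ∈ CC, ∃ η₂ ∈ CC, (∀ ξ, f₁ ξ = L (η₁ ξ)) ∧ ∀ ξ, f₂ ξ = L (η₂ ξ)

/-- The counterexamples. -/
noncomputable def Lf (lam c : ℝ) (s : ℝ) : ℝ := lam + (1 - lam) * Real.exp (-c * s)

lemma Lf_inL {lam c : ℝ} (h0 : 0 ≤ lam) (h1 : lam < 1) (hc : 0 < c) : InL (Lf lam c) where
  cont := by unfold Lf; fun_prop
  smooth := by intro n; unfold Lf; fun_prop
  mono := by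
    intro n s hs
    rcases Nat.eq_zero_or_pos n with rfl | hn
    · simp only [pow_zero, iteratedDeriv_zero, one_mul]
      unfold Lf
      have : 0 < 1 - lam := by linarith
      positivity
    · obtain ⟨k, rfl⟩ : ∃ k, n = k + 1 := ⟨n - 1, by omega⟩
      have key : ∀ k : ℕ, iteratedDeriv (k + 1) (Lf lam c)
          = fun s => (1 - lam) * (-c) ^ (k + 1) * Real.exp (-c * s) := by
        intro k
        have hd : ∀ (A : ℝ) (s : ℝ), HasDerivAt (fun s => A * Real.exp (-c * s))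
            (A * (-c) * Real.exp (-c * s)) s := by
          intro A s
          have h := (((hasDerivAt_id s).const_mul (-c)).exp).const_mul A
          refine h.congr_deriv ?_
          simp; ring
        induction k with
        | zero =>
          rw [zero_add, iteratedDeriv_one]
          funext s
          have h : HasDerivAt (Lf lam c) ((1 - lam) * (-c) * Real.exp (-c * s)) s := by
            have := (hd (1 - lam) s).const_add lam
            exact this
          rw [h.deriv]; ring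
        | succ k ih =>
          rw [iteratedDeriv_succ, ih]
          funext s
          rw [(hd _ s).deriv]; ring
      rw [key k]
      have e : (-1 : ℝ) ^ (k + 1) * ((1 - lam) * (-c) ^ (k + 1) * Real.exp (-c * s))
          = (1 - lam) * c ^ (k + 1) * Real.exp (-c * s) := by
        have : (-1 : ℝ) ^ (k + 1) * (-c) ^ (k + 1) = c ^ (k + 1) := by
          rw [← mul_pow]; ring
        linear_combination ((1 - lam) * Real.exp (-c * s)) * this
      simp only
      rw [e]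
      have : 0 < 1 - lam := by linarith
      positivity
  range := by
    intro s hs
    unfold Lf
    have h2 : 0 < 1 - lam := by linarith
    have h3 : Real.exp (-c * s) ≤ 1 := by
      rw [Real.exp_le_one_iff]; nlinarith
    have h4 := Real.exp_pos (-c * s)
    constructor
    · positivity
    · nlinarith
  inj := by
    intro s _ t _ h
    unfold Lf at h
    have h2 : 0 < 1 - lam := by linarith
    have h3 : Real.exp (-c * s) = Real.exp (-c * t) := by
      have : (1 - lam) * Real.exp (-c * s) = (1 - lam) * Real.exp (-c * t) := by linarith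
      exact mul_left_cancel₀ h2.ne' this
    have h4 := Real.exp_injective h3
    have h5 : c * s = c * t := by linarith
    exact mul_left_cancel₀ hc.ne' h5
  zero := by unfold Lf; simp

/-- Mean value of a characteristic function bounded below. -/
lemma atom_ge {μ : Measure ℝ} [IsProbabilityMeasure μ] {f : ℝ → ℝ}
    (hf : ∀ ξ : ℝ, charFun μ ξ = (f ξ : ℂ)) {lam : ℝ} (hlam : ∀ ξ, lam ≤ f ξ) :
    lam ≤ μ.real {0} := by
  -- Gaussian averages
  have hmean : ∀ n : ℕ, ∫ ξ, f ξ ∂(gaussianReal 0 (n : ℝ≥0)) = ∫ x, Real.exp (-(n * x ^ 2 / 2)) ∂μ := by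
    intro n
    have hC : ((∫ ξ, f ξ ∂(gaussianReal 0 (n : ℝ≥0)) : ℝ) : ℂ)
        = ((∫ x, Real.exp (-(n * x ^ 2 / 2)) ∂μ : ℝ) : ℂ) := by
      rw [← integral_complex_ofReal, ← integral_complex_ofReal]
      calc ∫ ξ, (f ξ : ℂ) ∂(gaussianReal 0 (n : ℝ≥0))
          = ∫ ξ, ∫ x, Complex.exp (ξ * x * Complex.I) ∂μ ∂(gaussianReal 0 (n : ℝ≥0)) := by
            refine integral_congr_ae (Eventually.of_forall fun ξ => ?_)
            simp only
            rw [← hf ξ, charFun_apply_real]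
        _ = ∫ x, ∫ ξ, Complex.exp (ξ * x * Complex.I) ∂(gaussianReal 0 (n : ℝ≥0)) ∂μ := by
            refine integral_integral_swap ?_
            refine Integrable.of_bound (by fun_prop) 1 (Eventually.of_forall fun p => ?_)
            simp only [Function.uncurry]
            have : ((p.1 : ℂ) * (p.2 : ℂ) * Complex.I) = ((p.1 * p.2 : ℝ) : ℂ) * Complex.I := by
              push_cast; ring
            rw [this, Complex.norm_exp_ofReal_mul_I]
        _ = ∫ x, ((Real.exp (-(n * x ^ 2 / 2)) : ℝ) : ℂ) ∂μ := by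
            refine integral_congr_ae (Eventually.of_forall fun x => ?_)
            simp only
            have h1 := charFun_gaussianReal (μ := 0) (v := (n : ℝ≥0)) x
            rw [charFun_apply_real] at h1
            have h2 : ∫ ξ : ℝ, Complex.exp (ξ * x * Complex.I) ∂(gaussianReal 0 (n : ℝ≥0))
                = ∫ ξ : ℝ, Complex.exp (x * ξ * Complex.I) ∂(gaussianReal 0 (n : ℝ≥0)) := by
              refine integral_congr_ae (Eventually.of_forall fun ξ => ?_)
              simp only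
              congr 1; ring
            rw [h2, h1]
            push_cast
            congr 1
            simp
    exact_mod_cast hC
  have hfb : ∀ ξ, |f ξ| ≤ 1 := by
    intro ξ
    have h1 := norm_charFun_le_one (μ := μ) ξ
    rw [hf ξ, Complex.norm_real] at h1
    exact h1
  have hfm : Measurable f := by
    have h1 : Continuous fun ξ => charFun μ ξ := continuous_charFun
    have h2 : f = fun ξ => (charFun μ ξ).re := by
      funext ξ; rw [hf ξ]; simp
    rw [h2]
    exact (Complex.continuous_re.comp h1).measurable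
  have hge : ∀ n : ℕ, lam ≤ ∫ x, Real.exp (-(n * x ^ 2 / 2)) ∂μ := by
    intro n
    rw [← hmean n]
    calc lam = ∫ _, lam ∂(gaussianReal 0 (n : ℝ≥0)) := by simp
      _ ≤ _ := integral_mono (integrable_const _)
        (Integrable.of_bound hfm.aestronglyMeasurable 1 (Eventually.of_forall hfb)) hlam
  have hlim : Tendsto (fun n : ℕ => ∫ x, Real.exp (-(n * x ^ 2 / 2)) ∂μ) atTop
      (𝓝 (∫ x, ({0} : Set ℝ).indicator (fun _ => (1 : ℝ)) x ∂μ)) := by
    refine tendsto_integral_of_dominated_convergence (fun _ => 1) (fun n => by fun_prop)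
      (integrable_const _) (fun n => Eventually.of_forall fun x => ?_)
      (Eventually.of_forall fun x => ?_)
    · rw [Real.norm_of_nonneg (Real.exp_pos _).le, Real.exp_le_one_iff]
      have : 0 ≤ (n : ℝ) * x ^ 2 / 2 := by positivity
      linarith
    · by_cases hx : x = 0
      · subst hx
        simp
      · rw [indicator_of_notMem (by simpa using hx)]
        have hx2 : 0 < x ^ 2 / 2 := by positivity
        have h1 : Tendsto (fun n : ℕ => (n : ℝ) * (x ^ 2 / 2)) atTop atTop :=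
          tendsto_natCast_atTop_atTop.atTop_mul_const hx2
        have h2 := Real.tendsto_exp_neg_atTop_nhds_zero.comp h1
        refine h2.congr fun n => ?_
        simp only [Function.comp]
        congr 1; ring
  rw [integral_indicator_const _ (measurableSet_singleton 0)] at hlim
  simp only [smul_eq_mul, mul_one] at hlim
  exact ge_of_tendsto' hlim hge

/-- removing the atom -/
lemma strip {f : ℝ → ℝ} (hf : IsCF f) {lam : ℝ} (h1 : lam < 1)
    (hlam : ∀ ξ, lam ≤ f ξ) : IsCF fun ξ => (f ξ - lam) / (1 - lam) := by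
  obtain ⟨μ, hμ, hμf⟩ := hf
  have hatom := atom_ge hμf hlam
  have h2 : 0 < 1 - lam := by linarith
  set w : ℝ := μ.real {0} - lam with hw
  have hw0 : 0 ≤ w := by rw [hw]; linarith
  set ρ : Measure ℝ := μ.restrict {0}ᶜ + ENNReal.ofReal w • Measure.dirac 0 with hρ
  set κ : Measure ℝ := ENNReal.ofReal (1 - lam)⁻¹ • ρ with hκ
  have hρu : ρ univ = ENNReal.ofReal (1 - lam) := by
    rw [hρ, Measure.add_apply, Measure.smul_apply, Measure.restrict_apply_univ]
    simp only [measure_univ, smul_eq_mul, mul_one]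
    have h3 : μ {0}ᶜ = ENNReal.ofReal (1 - μ.real {0}) := by
      rw [← ofReal_measureReal, measureReal_compl (measurableSet_singleton 0)]; simp
    rw [h3, ← ENNReal.ofReal_add (by linarith [measureReal_le_one (μ := μ) (s := {0})]) hw0]
    congr 1; rw [hw]; ring
  have hκp : IsProbabilityMeasure κ := by
    constructor
    rw [hκ, Measure.smul_apply, hρu, smul_eq_mul, ← ENNReal.ofReal_mul (by positivity),
      inv_mul_cancel₀ h2.ne', ENNReal.ofReal_one]
  refine ⟨κ, hκp, fun ξ => ?_⟩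
  have hint : ∀ ν : Measure ℝ, [IsFiniteMeasure ν] →
      Integrable (fun x : ℝ => Complex.exp (ξ * x * Complex.I)) ν := by
    intro ν _
    refine Integrable.of_bound (by fun_prop) 1 (Eventually.of_forall fun x => ?_)
    have : ((ξ : ℂ) * (x : ℂ) * Complex.I) = ((ξ * x : ℝ) : ℂ) * Complex.I := by push_cast; ring
    rw [this, Complex.norm_exp_ofReal_mul_I]
  have e1 : charFun μ ξ = ∫ x in {0}ᶜ, Complex.exp (ξ * x * Complex.I) ∂μ + (μ.real {0} : ℂ) := by
    rw [charFun_apply_real, ← integral_add_compl (measurableSet_singleton (0 : ℝ)) (hint μ), add_comm]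
    congr 1
    rw [integral_singleton]
    simp
  rw [charFun_apply_real, hκ, integral_smul_measure, hρ, integral_add_measure (hint _)
    ((hint _).smul_measure ENNReal.ofReal_ne_top), integral_smul_measure, integral_dirac]
  rw [hμf ξ] at e1
  have e2 : ∫ x in {0}ᶜ, Complex.exp (ξ * x * Complex.I) ∂μ = (f ξ : ℂ) - (μ.real {0} : ℂ) := by
    rw [e1]; ring
  rw [e2, ENNReal.toReal_ofReal (by positivity), ENNReal.toReal_ofReal hw0, hw]
  simp only [Complex.real_smul, Complex.ofReal_zero, mul_zero, zero_mul, Complex.exp_zero]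
  push_cast
  have h3 : (1 - (lam : ℂ)) ≠ 0 := by
    have : ((1 - lam : ℝ) : ℂ) ≠ 0 := by exact_mod_cast h2.ne'
    simpa using this
  field_simp
  ring

lemma quad_mem {r : ℝ} (hr : 0 ≤ r) : (fun ξ : ℝ => r * ξ ^ 2) ∈ CC := by
  refine ⟨√(2 * r), 0, by simp, by simp, fun ξ => ?_⟩
  rw [Real.sq_sqrt (by positivity)]
  simp

lemma Lf_propR {lam c : ℝ} (h0 : 0 ≤ lam) (h1 : lam < 1) (hc : 0 < c) : PropR (Lf lam c) := by
  intro a ha f₁ f₂ hf₁ hf₂ hr₁ hr₂ hΦ
  have hL := Lf_inL h0 h1 hc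
  have h2 : 0 < 1 - lam := by linarith
  set i₁ : ℝ → ℝ := fun ξ => Function.invFunOn (Lf lam c) (Ici 0) (f₁ ξ) with hi₁
  set i₂ : ℝ → ℝ := fun ξ => Function.invFunOn (Lf lam c) (Ici 0) (f₂ ξ) with hi₂
  have m₁ : ∀ ξ, 0 ≤ i₁ ξ ∧ Lf lam c (i₁ ξ) = f₁ ξ := fun ξ =>
    ⟨Function.invFunOn_mem (hr₁ ξ), Function.invFunOn_eq (hr₁ ξ)⟩
  have m₂ : ∀ ξ, 0 ≤ i₂ ξ ∧ Lf lam c (i₂ ξ) = f₂ ξ := fun ξ =>
    ⟨Function.invFunOn_mem (hr₂ ξ), Function.invFunOn_eq (hr₂ ξ)⟩
  have hsum : ∀ ξ, i₁ ξ + i₂ ξ = a * ξ ^ 2 := by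
    intro ξ
    refine hL.inj (add_nonneg (m₁ ξ).1 (m₂ ξ).1) ?_ (hΦ ξ)
    exact mul_nonneg ha.le (sq_nonneg ξ)
  have g₁ : ∀ ξ, (f₁ ξ - lam) / (1 - lam) = Real.exp (-c * i₁ ξ) := by
    intro ξ
    rw [← (m₁ ξ).2]; unfold Lf; field_simp; ring
  have g₂ : ∀ ξ, (f₂ ξ - lam) / (1 - lam) = Real.exp (-c * i₂ ξ) := by
    intro ξ
    rw [← (m₂ ξ).2]; unfold Lf; field_simp; ring
  have l₁ : ∀ ξ, lam ≤ f₁ ξ := by
    intro ξ
    rw [← (m₁ ξ).2]; unfold Lf
    have := Real.exp_pos (-c * i₁ ξ)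
    nlinarith
  have l₂ : ∀ ξ, lam ≤ f₂ ξ := by
    intro ξ
    rw [← (m₂ ξ).2]; unfold Lf
    have := Real.exp_pos (-c * i₂ ξ)
    nlinarith
  obtain ⟨κ₁, hκ₁, hκf₁⟩ := strip hf₁ h1 l₁
  obtain ⟨κ₂, hκ₂, hκf₂⟩ := strip hf₂ h1 l₂
  have hconv : κ₁.conv κ₂ = gaussianReal 0 (Real.toNNReal (2 * (c * a))) := by
    refine Measure.ext_of_charFun ?_
    funext ξ
    rw [charFun_conv, hκf₁, hκf₂, charFun_gaussianReal, Real.coe_toNNReal _ (by positivity)]
    beta_reduce
    rw [g₁, g₂, ← Complex.ofReal_mul, ← Real.exp_add]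
    have e : -c * i₁ ξ + -c * i₂ ξ = -(c * a * ξ ^ 2) := by
      have := hsum ξ
      linear_combination (-c) * this
    rw [e, Complex.ofReal_exp]
    congr 1
    push_cast
    ring
  have hconv' : κ₂.conv κ₁ = gaussianReal 0 (Real.toNNReal (2 * (c * a))) := by
    rw [Measure.conv_comm]; exact hconv
  have fin : ∀ (κ : Measure ℝ) (f i : ℝ → ℝ), (∃ (b : ℝ) (v : ℝ≥0), κ = gaussianReal b v) →
      (∀ ξ : ℝ, charFun κ ξ = (((f ξ - lam) / (1 - lam) : ℝ) : ℂ)) →
      (∀ ξ, (f ξ - lam) / (1 - lam) = Real.exp (-c * i ξ)) →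
      (∀ ξ, Lf lam c (i ξ) = f ξ) →
      ∃ η ∈ CC, ∀ ξ, f ξ = Lf lam c (η ξ) := by
    rintro κ f i ⟨b, v, rfl⟩ hcf hg hm
    have hv := v.coe_nonneg
    refine ⟨fun ξ => v / (2 * c) * ξ ^ 2, quad_mem (by positivity), fun ξ => ?_⟩
    have h3 := hcf ξ
    rw [charFun_gaussianReal] at h3
    have h4 := congrArg norm h3
    rw [Complex.norm_exp, Complex.norm_real, hg ξ, Real.norm_of_nonneg (Real.exp_pos _).le] at h4
    have h5 : ((ξ : ℂ) * (b : ℂ) * Complex.I - ((v : ℝ) : ℂ) * (ξ : ℂ) ^ 2 / 2).re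
        = -(v * ξ ^ 2 / 2) := by
      have : ((ξ : ℂ) * (b : ℂ) * Complex.I - ((v : ℝ) : ℂ) * (ξ : ℂ) ^ 2 / 2)
          = ((-(v * ξ ^ 2 / 2) : ℝ) : ℂ) + ((ξ * b : ℝ) : ℂ) * Complex.I := by
        push_cast; ring
      rw [this, Complex.add_re, Complex.ofReal_re, Complex.re_ofReal_mul, Complex.I_re, mul_zero,
        add_zero]
    rw [h5] at h4
    have h6 := Real.exp_injective h4
    have h7 : i ξ = v / (2 * c) * ξ ^ 2 := by
      field_simp
      linarith
    rw [← hm ξ, h7]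
  obtain ⟨η₁, hη₁, e₁⟩ := fin κ₁ f₁ i₁ (cramer hconv) hκf₁ g₁ (fun ξ => (m₁ ξ).2)
  obtain ⟨η₂, hη₂, e₂⟩ := fin κ₂ f₂ i₂ (cramer hconv') hκf₂ g₂ (fun ξ => (m₂ ξ).2)
  exact ⟨η₁, hη₁, η₂, hη₂, e₁, e₂⟩

lemma Lf_ne {lam c : ℝ} (h0 : 0 < lam) (_h1 : lam < 1) (hc : 0 < c) :
    ¬ ∃ b : ℝ, 0 < b ∧ ∀ s : ℝ, 0 ≤ s → Lf lam c s = Real.exp (-b * s) := by
  rintro ⟨b, hb, h⟩
  have h1 : Tendsto (fun s : ℝ => Lf lam c s) atTop (𝓝 lam) := by
    have h2 : Tendsto (fun s : ℝ => Real.exp (-c * s)) atTop (𝓝 0) := by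
      refine Real.tendsto_exp_atBot.comp ?_
      exact tendsto_id.const_mul_atTop_of_neg (by linarith)
    have := (h2.const_mul (1 - lam)).const_add lam
    simpa [Lf] using this
  have h2 : Tendsto (fun s : ℝ => Real.exp (-b * s)) atTop (𝓝 0) := by
    refine Real.tendsto_exp_atBot.comp ?_
    exact tendsto_id.const_mul_atTop_of_neg (by linarith)
  have h3 : Tendsto (fun s : ℝ => Lf lam c s) atTop (𝓝 0) := by
    refine h2.congr' ?_
    filter_upwards [eventually_ge_atTop 0] with s hs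
    exact (h s hs).symm
  have := tendsto_nhds_unique h1 h3
  linarith

/-- **Disproof of MP_c7609e, Q1.** -/
theorem result :
    -- all the functions `lam + (1-lam) e^{-cs}` are in `𝓛` and have property (R)
    (∀ lam c : ℝ, 0 ≤ lam → lam < 1 → 0 < c →
      InL (fun s => lam + (1 - lam) * Real.exp (-c * s)) ∧
      PropR (fun s => lam + (1 - lam) * Real.exp (-c * s))) ∧
    -- the negated form of Q1
    (∃ L : ℝ → ℝ, InL L ∧ (¬ ∃ c : ℝ, 0 < c ∧ ∀ s : ℝ, 0 ≤ s → L s = Real.exp (-c * s)) ∧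
      PropR L) ∧
    -- the statement of Q1 is false
    ¬ (∀ L : ℝ → ℝ, InL L →
      (PropR L ↔ ∃ c : ℝ, 0 < c ∧ ∀ s : ℝ, 0 ≤ s → L s = Real.exp (-c * s))) := by
  refine ⟨fun lam c h0 h1 hc => ⟨Lf_inL h0 h1 hc, Lf_propR h0 h1 hc⟩, ?_, ?_⟩
  · exact ⟨Lf (1 / 2) 1, Lf_inL (by norm_num) (by norm_num) one_pos,
      Lf_ne (by norm_num) (by norm_num) one_pos,
      Lf_propR (by norm_num) (by norm_num) one_pos⟩
  · intro hall
    exact Lf_ne (lam := 1 / 2) (c := 1) (by norm_num) (by norm_num) one_pos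
      ((hall (Lf (1 / 2) 1) (Lf_inL (by norm_num) (by norm_num) one_pos)).1
        (Lf_propR (by norm_num) (by norm_num) one_pos))

end Pool.Agent.Results.MP_c7609e_pr.AffineRigid
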